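import Pool.Agent.H.MP_d93d44_co.A

namespace Pool.Agent.H.MP_33c96f_co.A

open Matrix Polynomial Finset

variable {V : Type} [Fintype V] [DecidableEq V]

theorem adj_diag (M : Matrix V V ℝ) (a : V) :
    M.adjugate a a = (M.submatrix (Subtype.val : {v // v ≠ a} → V) Subtype.val).det := by
  rw [adjugate_apply, twoBlockTriangular_det _ (· ≠ a)]
  · have h : (toSquareBlockProp (M.updateRow a (Pi.single a 1)) fun i => ¬ i ≠ a) = 1 := by
      ext ⟨i, hi⟩ ⟨j, hj⟩
      obtain rfl := not_not.1 hi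
      obtain rfl := not_not.1 hj
      simp [toSquareBlockProp, toBlock]
    rw [h, det_one, mul_one]
    congr 1
    ext ⟨i, hi⟩ ⟨j, hj⟩
    simp [toSquareBlockProp, toBlock, updateRow_ne hi]
  · intro i hi j hj
    obtain rfl := not_not.1 hi
    simp [hj]

theorem cospec (A : Matrix V V ℝ) (a b : V) (h : ∀ k : ℕ, (A ^ k) a a = (A ^ k) b b) :
    (A.submatrix (Subtype.val : {v // v ≠ a} → V) Subtype.val).charpoly =
      (A.submatrix (Subtype.val : {v // v ≠ b} → V) Subtype.val).charpoly := by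
  have hp : ∀ p : ℝ[X], (aeval A p) a a = (aeval A p) b b := fun p => by
    simp only [aeval_eq_sum_range, Matrix.sum_apply, Matrix.smul_apply, h]
  apply mul_right_cancel₀ A.charpoly_monic.ne_zero
  apply Polynomial.funext
  intro x
  have e : ∀ c : V, ((A.submatrix (Subtype.val : {v // v ≠ c} → V) Subtype.val).charpoly).eval x =
      (scalar V x - A).adjugate c c := fun c => by
    rw [adj_diag, eval_charpoly]
    congr 1
    ext i j
    simp [diagonal_apply, Subtype.ext_iff]
  rw [eval_mul, eval_mul, e, e]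
  have h1 : (C x - X : ℝ[X]) ∣ C (A.charpoly.eval x) - A.charpoly := by
    have := X_sub_C_dvd_sub_C_eval (a := x) (p := A.charpoly)
    rw [← neg_sub X, ← neg_sub A.charpoly]
    exact (neg_dvd.2 this).neg_right
  obtain ⟨q, hq⟩ := h1
  have h2 := congrArg (aeval A) hq
  rw [map_sub, aeval_self_charpoly, sub_zero, map_mul, map_sub, aeval_X, aeval_C, aeval_C] at h2
  have h3 : (scalar V x - A).adjugate * algebraMap ℝ _ (A.charpoly.eval x) =
      (scalar V x - A).det • aeval A q := by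
    rw [h2, ← mul_assoc]
    erw [adjugate_mul]
    rw [smul_mul_assoc, one_mul]
  have h4 : ∀ c, (scalar V x - A).adjugate c c * A.charpoly.eval x =
      (scalar V x - A).det * aeval A q c c := fun c => by
    have := congrFun (congrFun h3 c) c
    simpa [Algebra.algebraMap_eq_smul_one, mul_comm] using this
  rw [h4, h4, hp]

theorem rat_of (A : Matrix V V ℝ) (hA : A.IsHermitian) (m : ℕ → V → ℕ) (a : V)
    (hm : ∀ j w, ((A ^ 2) ^ j) w a = m j w) (c : ℝ) (g : ℝ → ℝ) (y : V → ℝ)
    (h1 : ∀ i, hA.eigenvectorBasis i a ≠ 0 → ∃ k : ℤ, hA.eigenvalues i = k * c)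
    (h2 : ∀ i, hA.eigenvectorBasis i a ≠ 0 → ∃ q : ℚ, g (hA.eigenvalues i ^ 2) = q)
    (h3 : ∀ i, ∑ w, hA.eigenvectorBasis i w * y w =
      g (hA.eigenvalues i ^ 2) * hA.eigenvectorBasis i a) (w : V) : ∃ q : ℚ, y w = q := by
  obtain ⟨φ, hφ⟩ := (Algebra.linearMap ℚ ℝ).exists_leftInverse_of_injective
    (LinearMap.ker_eq_bot.2 (algebraMap ℚ ℝ).injective)
  have φ1 : ∀ q : ℚ, φ q = q := fun q => LinearMap.congr_fun hφ q
  have φ2 : ∀ (N : ℕ) (f : ℕ → ℝ) (r : ℕ → ℚ),
      ∑ j ∈ range N, (φ (f j) : ℝ) * r j = φ (∑ j ∈ range N, f j * r j) := fun N f r => by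
    rw [map_sum]
    push_cast
    refine sum_congr rfl fun j _ => ?_
    rw [mul_comm (f j), ← Rat.smul_def (r j), map_smul, smul_eq_mul, mul_comm]
    push_cast
    rfl
  have comp : ∀ x x' : V → ℝ, (∀ i, ∑ w, hA.eigenvectorBasis i w * x w =
      ∑ w, hA.eigenvectorBasis i w * x' w) → x = x' := fun x x' h => by
    have : WithLp.toLp 2 x = WithLp.toLp 2 x' := hA.eigenvectorBasis.repr.injective (by
      ext i
      rw [OrthonormalBasis.repr_apply_apply, OrthonormalBasis.repr_apply_apply]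
      simpa [PiLp.inner_apply, mul_comm] using h i)
    exact congrArg WithLp.ofLp this
  have pw : ∀ i (j : ℕ), ∑ w, hA.eigenvectorBasis i w * m j w =
      (hA.eigenvalues i ^ 2) ^ j * hA.eigenvectorBasis i a := fun i j => by
    have e : ∀ k : ℕ, A ^ k *ᵥ ⇑(hA.eigenvectorBasis i) =
        hA.eigenvalues i ^ k • ⇑(hA.eigenvectorBasis i) := fun k => by
      induction k with
      | zero => simp
      | succ k ih => rw [pow_succ, ← mulVec_mulVec, hA.mulVec_eigenvectorBasis, mulVec_smul, ih,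
          smul_smul, pow_succ, mul_comm]
    have := congrFun (e (2 * j)) a
    rw [pow_mul, pow_mul] at this
    refine Eq.trans (sum_congr rfl fun w _ => ?_) this
    rw [← hm, mul_comm, ← ((hA.pow 2).pow j).apply w a]
    rfl
  have E : ∀ i (N : ℕ) (f : ℕ → ℝ), ∑ w, hA.eigenvectorBasis i w * ∑ j ∈ range N, f j * m j w =
      (∑ j ∈ range N, f j * (hA.eigenvalues i ^ 2) ^ j) * hA.eigenvectorBasis i a := fun i N f => by
    simp only [mul_sum, sum_mul, mul_assoc, ← pw]
    rw [sum_comm]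
    exact sum_congr rfl fun _ _ => sum_congr rfl fun _ _ => by ring
  set S := (univ.filter fun i => hA.eigenvectorBasis i a ≠ 0).image
    fun i => hA.eigenvalues i ^ 2 with hS
  have mS : ∀ s, s ∈ S ↔ ∃ i, hA.eigenvectorBasis i a ≠ 0 ∧ hA.eigenvalues i ^ 2 = s := by
    simp [hS]
  have srat : ∀ s ∈ S, ∃ q : ℚ, s = q := by
    intro s0 hs0
    have r0 : 0 < S.card := card_pos.2 ⟨_, hs0⟩
    set P : ℝ[X] := ∏ s ∈ S, (X - C s) with hP
    have dP : P.natDegree = S.card := natDegree_finsetProd_X_sub_C_eq_card S fun s => s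
    have mP : P.Monic := monic_prod_X_sub_C _ _
    have zP : ∀ s ∈ S, P.eval s = 0 := fun s hs => by
      rw [hP, eval_prod]
      exact prod_eq_zero hs (by simp)
    have x0 : (fun w => ∑ j ∈ range (S.card + 1), P.coeff j * m j w) = 0 := comp _ _ fun i => by
      rw [E, ← dP, ← eval_eq_sum_range]
      by_cases h : hA.eigenvectorBasis i a = 0
      · simp [h]
      · simp [zP _ ((mS _).2 ⟨i, h, rfl⟩)]
    have z : ∀ s ∈ S, ∑ j ∈ range (S.card + 1), (φ (P.coeff j) : ℝ) * s ^ j = 0 := fun s hs => by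
      obtain ⟨i, hi, rfl⟩ := (mS s).1 hs
      refine (mul_eq_zero.1 ((E i _ _).symm.trans (sum_eq_zero fun w _ => ?_))).resolve_right hi
      have := φ2 (S.card + 1) P.coeff fun j => m j w
      push_cast at this
      rw [this, show ∑ j ∈ range (S.card + 1), P.coeff j * m j w = 0 from congrFun x0 w]
      simp
    have e : (∑ j ∈ range (S.card + 1), monomial j (φ (P.coeff j) : ℝ)) - P = 0 := by
      refine eq_zero_of_degree_lt_of_eval_finset_eq_zero S ((degree_lt_iff_coeff_zero _ _).2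
        fun k hk => ?_) fun s hs => ?_
      · simp only [coeff_sub, finsetSum_coeff, coeff_monomial, sum_ite_eq', mem_range]
        rcases hk.lt_or_eq with h | h
        · rw [if_neg (by omega), coeff_eq_zero_of_natDegree_lt (by omega), sub_zero]
        · have : P.coeff k = 1 := by rw [← h, ← dP]; exact mP.coeff_natDegree
          have k1 := φ1 1
          rw [Rat.cast_one] at k1
          rw [if_pos (by omega), this, k1]
          simp
      · simp only [eval_sub, eval_finsetSum, eval_monomial, z s hs, zP s hs, sub_zero]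
    have e2 := congrArg (coeff · (S.card - 1)) e
    simp only [coeff_sub, finsetSum_coeff, coeff_monomial, sum_ite_eq', mem_range, coeff_zero] at e2
    rw [if_pos (by omega), sub_eq_zero] at e2
    have e3 : P.coeff (S.card - 1) = -∑ s ∈ S, s := prod_X_sub_C_coeff_card_pred S (fun s => s) r0
    have hk : ∀ s ∈ S, ∃ k : ℤ, s = k ^ 2 * c ^ 2 := fun s hs => by
      obtain ⟨i, hi, rfl⟩ := (mS s).1 hs
      obtain ⟨k, hk⟩ := h1 i hi
      exact ⟨k, by rw [hk, mul_pow]⟩
    choose! k hk using hk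
    have e4 : ∑ s ∈ S, s = ((∑ s ∈ S, k s ^ 2 : ℤ) : ℝ) * c ^ 2 := by
      push_cast
      rw [sum_mul]
      exact sum_congr rfl hk
    by_cases h0 : ∑ s ∈ S, k s ^ 2 = 0
    · have := (sum_eq_zero_iff_of_nonneg fun s _ => sq_nonneg (k s)).1 h0 s0 hs0
      exact ⟨0, by rw [hk s0 hs0, pow_eq_zero_iff two_ne_zero |>.1 this]; simp⟩
    · refine ⟨k s0 ^ 2 * (-φ (P.coeff (S.card - 1)) / (∑ s ∈ S, k s ^ 2 : ℤ)), ?_⟩
      have : ((∑ s ∈ S, k s ^ 2 : ℤ) : ℝ) ≠ 0 := by exact_mod_cast h0
      rw [Rat.cast_mul, Rat.cast_div, Rat.cast_neg, e2, e3, e4, Rat.cast_intCast, neg_neg,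
        mul_div_cancel_left₀ _ this]
      exact_mod_cast hk s0 hs0
  set f := Lagrange.interpolate S id g with hf
  have fe : ∀ s ∈ S, ∑ j ∈ range (f.natDegree + 1), f.coeff j * s ^ j = g s := fun s hs => by
    rw [← eval_eq_sum_range]
    exact Lagrange.eval_interpolate_at_node g (Set.injOn_id _) hs
  have y1 : y = fun w => ∑ j ∈ range (f.natDegree + 1), f.coeff j * m j w := comp _ _ fun i => by
    rw [E, h3]
    by_cases h : hA.eigenvectorBasis i a = 0
    · simp [h]
    · rw [fe _ ((mS _).2 ⟨i, h, rfl⟩)]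
  have y2 : y = fun w => ∑ j ∈ range (f.natDegree + 1), (φ (f.coeff j) : ℝ) * m j w :=
    comp _ _ fun i => by
      rw [E, h3]
      by_cases h : hA.eigenvectorBasis i a = 0
      · simp [h]
      · have hs := (mS _).2 ⟨i, h, rfl⟩
        obtain ⟨q, hq⟩ := srat _ hs
        obtain ⟨r, hr⟩ := h2 i h
        have := φ2 (f.natDegree + 1) f.coeff fun j => q ^ j
        push_cast at this
        rw [← hq, fe _ hs, hr, φ1] at this
        rw [this, hr]
  refine ⟨∑ j ∈ range (f.natDegree + 1), φ (f.coeff j) * m j w, ?_⟩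
  rw [y2]
  push_cast
  rfl

end Pool.Agent.H.MP_33c96f_co.A
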